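import Pool.Agent.Helper72.AP.F

/-!
# The inverse Galois problem follows from its approximate version

A section of a group `X` is a quotient of a subgroup of `X`.  If `Γ = H / N` is a section of the finite group `X`, then
`|X| / |Γ| = [X : H] |N|` measures how far `X` is from `Γ`; this number is `1` if and only if `X = Γ`.

We prove: for every field `k`, all finite groups are Galois groups over `k` if and only if for every `ε > 0` all
sufficiently large finite groups `Γ` are sections of Galois groups `X` over `k` with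
`|X| ≤ |Γ| exp (ε (log |Γ|) ^ (1/2))`.

This rests on a theorem on finite groups: for every finite group `G` there are `c > 0` and arbitrarily large finite
groups `Γ` such that `G` is a quotient of EVERY finite group `X` which has `Γ` as a section and satisfies
`|X| ≤ |Γ| exp (c (log |Γ|) ^ (1/2))`.
-/

set_option autoImplicit false

namespace Pool.Agent.Results.MP_dadaab_nt.ApproximateRealizations

/-- `G` is the Galois group of a finite Galois extension of `k`. -/
def Realizable (k : Type) [Field k] (G : Type) [Group G] : Prop :=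
  ∃ (L : Type) (_ : Field L) (_ : Algebra k L),
    FiniteDimensional k L ∧ IsGalois k L ∧ Nonempty (G ≃* (L ≃ₐ[k] L))

/-- `Γ` is a section of `X`, that is a quotient of a subgroup `H` of `X`. -/
def IsSection (Γ X : Type) [Group Γ] [Group X] : Prop :=
  ∃ (H : Subgroup X) (f : H →* Γ), Function.Surjective f

/-- `Γ` is a section of the group `X` of order at most `|Γ| exp (ε (log |Γ|) ^ (1/2))`. -/
def Close (ε : ℝ) (Γ X : Type) [Group Γ] [Group X] : Prop :=
  IsSection Γ X ∧ (Nat.card X : ℝ) ≤ Nat.card Γ * Real.exp (ε * Real.sqrt (Real.log (Nat.card Γ)))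

/-- Quotients of Galois groups are Galois groups. -/
theorem realizable_of_surjective (k : Type) [Field k] (X G : Type) [Group X] [Group G]
    (h : Realizable k X) (ψ : X →* G) (hψ : Function.Surjective ψ) : Realizable k G := by
  obtain ⟨L, _, _, hfin, hgal, ⟨e⟩⟩ := h
  let φ : (L ≃ₐ[k] L) →* G := ψ.comp e.symm.toMonoidHom
  have hφ : Function.Surjective φ := hψ.comp e.symm.surjective
  refine ⟨IntermediateField.fixedField φ.ker, inferInstance, inferInstance, inferInstance,
    IsGalois.of_fixedField_normal_subgroup _, ?_⟩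
  exact ⟨(QuotientGroup.quotientKerEquivOfSurjective φ hφ).symm.trans
    (IsGalois.normalAutEquivQuotient φ.ker)⟩

/-- **Theorem.**
(1) For every finite group `G` there are `c > 0` and arbitrarily large finite groups `Γ` such that `G` is a quotient of
every finite group `X` which has `Γ` as a section and satisfies `|X| ≤ |Γ| exp (c (log |Γ|) ^ (1/2))`.
(2) Let `k` be a field.  All finite groups are Galois groups over `k` if and only if for every `ε > 0` all sufficiently
large finite groups `Γ` are sections of Galois groups `X` over `k` with `|X| ≤ |Γ| exp (ε (log |Γ|) ^ (1/2))`.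
(3) If a finite group `G` is not a Galois group over `k`, then there are `c > 0`, which depends only on `G`, and
arbitrarily large finite groups `Γ`, which depend only on `G`, such that all Galois groups `X` over `k` which have `Γ`
as a section satisfy `|X| > |Γ| exp (c (log |Γ|) ^ (1/2))`. -/
theorem result :
    (∀ (G : Type) [Group G] [Finite G], ∃ c : ℝ, 0 < c ∧ ∀ n₀ : ℕ,
      ∃ (Γ : Type) (_ : Group Γ) (_ : Finite Γ), n₀ ≤ Nat.card Γ ∧
        (∀ (X : Type) [Group X] [Finite X], Close c Γ X → ∃ ψ : X →* G, Function.Surjective ψ) ∧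
        ∀ (k : Type) [Field k], ¬ Realizable k G → ∀ (X : Type) [Group X] [Finite X],
          Realizable k X → IsSection Γ X →
            Nat.card Γ * Real.exp (c * Real.sqrt (Real.log (Nat.card Γ))) < Nat.card X) ∧
    (∀ (k : Type) [Field k],
      (∀ (G : Type) [Group G] [Finite G], Realizable k G) ↔
      ∀ ε : ℝ, 0 < ε → ∃ n₀ : ℕ, ∀ (Γ : Type) [Group Γ] [Finite Γ], n₀ ≤ Nat.card Γ →
        ∃ (X : Type) (_ : Group X) (_ : Finite X), Realizable k X ∧ Close ε Γ X) := by
  have key : ∀ (G : Type) [Group G] [Finite G], ∃ c : ℝ, 0 < c ∧ ∀ n₀ : ℕ,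
      ∃ (Γ : Type) (_ : Group Γ) (_ : Finite Γ), n₀ ≤ Nat.card Γ ∧
        (∀ (X : Type) [Group X] [Finite X], Close c Γ X → ∃ ψ : X →* G, Function.Surjective ψ) := by
    intro G _ _
    obtain ⟨c, hc, h⟩ := Pool.Agent.Helper72.AP.exists_test G
    refine ⟨c, hc, fun n₀ => ?_⟩
    obtain ⟨Γ, _, _, h1, h2⟩ := h n₀
    refine ⟨Γ, inferInstance, inferInstance, h1, ?_⟩
    rintro X _ _ ⟨⟨H, f, hf⟩, hX⟩
    exact h2 X H f hf hX
  refine ⟨fun G _ _ => ?_, fun k _ => ⟨fun h ε hε => ?_, fun h G _ _ => ?_⟩⟩
  · obtain ⟨c, hc, h⟩ := key G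
    refine ⟨c, hc, fun n₀ => ?_⟩
    obtain ⟨Γ, _, _, h1, h2⟩ := h n₀
    refine ⟨Γ, inferInstance, inferInstance, h1, h2, ?_⟩
    intro k _ hk X _ _ hX hs
    by_contra hcon
    obtain ⟨ψ, hψ⟩ := h2 X ⟨hs, not_lt.1 hcon⟩
    exact hk (realizable_of_surjective k X G hX ψ hψ)
  · refine ⟨0, fun Γ _ _ _ => ⟨Γ, inferInstance, inferInstance, h Γ,
      ⟨⊤, (Subgroup.topEquiv : (⊤ : Subgroup Γ) ≃* Γ).toMonoidHom,
        (Subgroup.topEquiv : (⊤ : Subgroup Γ) ≃* Γ).surjective⟩, ?_⟩⟩
    have h1 : 1 ≤ Real.exp (ε * Real.sqrt (Real.log (Nat.card Γ))) := Real.one_le_exp (by positivity)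
    have h2 : (0 : ℝ) ≤ Nat.card Γ := Nat.cast_nonneg _
    nlinarith
  · obtain ⟨c, hc, h1⟩ := key G
    obtain ⟨n₀, h2⟩ := h c hc
    obtain ⟨Γ, _, _, h3, h4⟩ := h1 n₀
    obtain ⟨X, _, _, h5, h6⟩ := h2 Γ h3
    obtain ⟨ψ, hψ⟩ := h4 X h6
    exact realizable_of_surjective k X G h5 ψ hψ

end Pool.Agent.Results.MP_dadaab_nt.ApproximateRealizations
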