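import Mathlib
import Pool.Agent.Helper72.FA.Abs
import Pool.Agent.Helper72.FA.Deg
import Pool.Agent.Helper72.FA.Prod

/-!
# The compositum of all alternating extensions has a free absolute Galois group

Let `K` be a number field, for example `ℚ`, or any Hilbertian field of characteristic zero, and let
`c, d` be natural numbers, `d ≥ 1`. Let `N_c` be the compositum of ALL Galois extensions of `K` whose
group is an alternating group `A_n` with `n ≥ c` and `d ∣ n`. For a natural number `w` let `S_w` be
the compositum of all finite Galois extensions of `K` in whose Galois group every quotient which is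
isomorphic to some `A_n` with `n ≥ max(w, 5)` splits off. All Galois extensions with a simple group
and all those whose group has no such quotient are contained in `S_w`, for example all those with a
solvable or symmetric group and all those of degree less than `w! / 2`; so the union of the
increasing sequence of the fields `S_w` is the algebraic closure of `K`.

1. Let `N` be any field with `N_c ⊆ N ⊆ S_w`, Galois over `K` or not. Then every finite embedding
   problem over `N`, split or not, has a proper solution; so every finite group is a Galois group
   over `N`, and if `K` is countable, then the absolute Galois group of `N` is the free profinite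
   group of countable rank.
2. If `c ≥ 5`, then `N_c` is such a field `N`, for all `w`; the Galois group of `N_c / K` is the
   direct product of the groups `Gal(E / K) ≅ A_n` of all the Galois extensions `E / K` with such a
   group; and `K` is the only extension of `K` of degree less than `c` which is contained in `N_c`.

So, if `K` is countable, then there is an exact sequence `1 → F → Gal(K) → ∏ A_(n i) → 1` with a free
profinite group `F` of countable rank and alternating groups of degrees `n i ≥ c`. The intersection
of all `N_c` is `K`, and the absolute Galois group of `K` is topologically generated by an increasing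
sequence of closed normal subgroups which are free of countable rank. Other examples of fields `N`
are all finite extensions of `N_c` and the composita of `N_c` with any finite extension of `K`, with
any subfield of the maximal solvable extension of `K`, or with any subfield of the compositum of all
Galois extensions of `K` with simple groups. Every algebraic extension of `N_c` is the union of an
increasing sequence of fields with free absolute Galois groups of countable rank.

For symmetric groups in place of alternating groups the freeness is a known theorem (Fried and
Jarden), since that compositum is PAC. We do not know whether `N_c` is PAC, and the proof does not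
use curves with many rational points over extensions with an alternating group.

Outline. Let `φ : Gal(N) → A` and `α : B → A` be an embedding problem. Then `φ` factors through the
image `R` of `Gal(N)` in `Δ = Gal(L/K)` for a finite Galois extension `L/K`. A wreath product
construction, for which `R` need not be normal, gives a surjection `β : E → Δ` of finite groups and a homomorphism `θ : β⁻¹(R) → B`
over `A` which maps `ker β` onto `ker α`. By the starting library (`K3h17.hil_alt`) the alternating
fibre power `W` of `β` of degree `n` is the group of a Galois extension of `K` containing `L`, for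
some `n ≥ max(c, w)` with `d ∣ n`. Since `N` contains the subextension with group `A_n`, the first
coordinate is a homomorphism `Gal(N) → E`, and its composition with `θ` solves the embedding problem.
It is surjective: as `N ⊆ S_w`, the group `W` contains an element `t` which moves the first
coordinate and which commutes with the kernel of `W → A_n` modulo the image of `Gal(N)`; the
commutators of `t` with the elements of `ker β` in the first coordinate are in this image. Now
Iwasawa's criterion, proved in `FA/Iwa.lean`, gives the freeness.
-/

set_option autoImplicit false

namespace Pool.Agent.Results.MP_dadaab_nt.FreeAlternatingClosure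

open Filter Topology

/-- Hilbertian fields, with the words of the frozen statement `S03429`. -/
def Hilbertian (K : Type) [Field K] : Prop :=
  ∀ (f : Polynomial (Polynomial K)), f.Monic → Irreducible f →
    (f.map (algebraMap (Polynomial K) (FractionRing (Polynomial K)))).Separable →
    ∀ g : Polynomial K, g ≠ 0 →
      ∃ a : K, g.eval a ≠ 0 ∧ Irreducible (f.map (Polynomial.evalRingHom a))

/-- All Galois extensions of `K`, in its algebraic closure, whose group is isomorphic to an
alternating group `A_n` with `n ≥ c` and `d ∣ n`. -/
def AlternatingExtensions (K : Type) [Field K] (c d : ℕ) :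
    Set (IntermediateField K (AlgebraicClosure K)) :=
  {E | FiniteDimensional K E ∧ IsGalois K E ∧ ∃ n : ℕ, c ≤ n ∧ d ∣ n ∧
    Nonempty ((E ≃ₐ[K] E) ≃* alternatingGroup (Fin n))}

/-- The compositum of all these extensions. -/
noncomputable def AlternatingClosure (K : Type) [Field K] (c d : ℕ) :
    IntermediateField K (AlgebraicClosure K) :=
  sSup (AlternatingExtensions K c d)

/-- Every quotient `G / C` of `G` which is isomorphic to an alternating group `A_n` with `n ≥ w` and
`n ≥ 5` splits off: `G` is generated by `C` and the centralizer of `C`. This holds in particular
if `G` has no quotient which is isomorphic to such an `A_n`. -/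
def AlternatingQuotientsSplitOff (w : ℕ) (G : Type) [Group G] : Prop :=
  ∀ (C : Subgroup G) [C.Normal] (n : ℕ), w ≤ n → 5 ≤ n →
    Nonempty ((G ⧸ C) ≃* alternatingGroup (Fin n)) →
    C ⊔ Subgroup.centralizer (C : Set G) = ⊤

/-- The compositum of all finite Galois extensions of `K`, in its algebraic closure, in whose
groups all quotients `A_n` with `n ≥ w` and `n ≥ 5` split off. -/
noncomputable def SplitClosure (K : Type) [Field K] (w : ℕ) :
    IntermediateField K (AlgebraicClosure K) :=
  sSup {E | FiniteDimensional K E ∧ IsGalois K E ∧ AlternatingQuotientsSplitOff w (E ≃ₐ[K] E)}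

/-- Every finite embedding problem for the profinite group `G` has a proper solution: for all
continuous surjective homomorphisms `φ : G → A` (that is, `ker φ` is open) and all surjective
homomorphisms `α : B → A` of finite groups there is a continuous surjective `ψ : G → B` with
`α ∘ ψ = φ`. -/
def EmbeddingProblemsSolvable (G : Type) [Group G] [TopologicalSpace G] : Prop :=
  ∀ (A B : Type) [Group A] [Group B] [Finite B] (φ : G →* A) (α : B →* A),
    Function.Surjective φ → IsOpen (φ.ker : Set G) → Function.Surjective α →
    ∃ ψ : G →* B, Function.Surjective ψ ∧ IsOpen (ψ.ker : Set G) ∧ α.comp ψ = φ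

/-- `G` is a free profinite group of countably infinite rank: it has elements `x 0, x 1, …`,
converging to `1`, such that for every profinite group `H` and all elements `y 0, y 1, …` of `H`
which converge to `1` there is exactly one continuous homomorphism `G → H` which maps all `x i` to
`y i`. -/
def FreeProfiniteCountableRank (G : Type) [Group G] [TopologicalSpace G] : Prop :=
  ∃ x : ℕ → G, Tendsto x atTop (𝓝 1) ∧
    ∀ (H : Type) [Group H] [TopologicalSpace H] [IsTopologicalGroup H] [CompactSpace H]
      [T2Space H] [TotallyDisconnectedSpace H] (y : ℕ → H), Tendsto y atTop (𝓝 1) →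
      ∃! f : G →* H, Continuous f ∧ ∀ i, f (x i) = y i

theorem result (K : Type) [Field K] [CharZero K] (hK : NumberField K ∨ Hilbertian K) :
    (∀ (c d w : ℕ), 0 < d → ∀ N : IntermediateField K (AlgebraicClosure K),
      AlternatingClosure K c d ≤ N → N ≤ SplitClosure K w →
      EmbeddingProblemsSolvable (AlgebraicClosure K ≃ₐ[N] AlgebraicClosure K) ∧
      (∀ (G : Type) [Group G] [Finite G], ∃ M : IntermediateField N (AlgebraicClosure K),
        FiniteDimensional N M ∧ IsGalois N M ∧ Nonempty ((M ≃ₐ[N] M) ≃* G)) ∧
      (Countable K → FreeProfiniteCountableRank (AlgebraicClosure K ≃ₐ[N] AlgebraicClosure K))) ∧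
    (∀ (w : ℕ) (E : IntermediateField K (AlgebraicClosure K)), FiniteDimensional K E →
      IsGalois K E → (IsSimpleGroup (E ≃ₐ[K] E) ∨
        ∀ (C : Subgroup (E ≃ₐ[K] E)) [C.Normal] (n : ℕ), w ≤ n → 5 ≤ n →
          IsEmpty ((E ≃ₐ[K] E) ⧸ C ≃* alternatingGroup (Fin n))) → E ≤ SplitClosure K w) ∧
    ∀ c d : ℕ, 5 ≤ c → Normal K (AlternatingClosure K c d) ∧
      (∀ w : ℕ, AlternatingClosure K c d ≤ SplitClosure K w) ∧
      (∀ τ : ∀ E : AlternatingExtensions K c d, (E.1 ≃ₐ[K] E.1),
        ∃! σ : AlternatingClosure K c d ≃ₐ[K] AlternatingClosure K c d,
          ∀ (E : AlternatingExtensions K c d) (x : E.1),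
            σ (IntermediateField.inclusion (le_sSup E.2) x) =
              IntermediateField.inclusion (le_sSup E.2) (τ E x)) ∧
      ∀ F : IntermediateField K (AlgebraicClosure K), F ≤ AlternatingClosure K c d →
        FiniteDimensional K F → Module.finrank K F < c → F = ⊥ := by
  have hK' : Pool.Agent.H391R2.T4.HilbField K := by
    rcases hK with h | h
    · exact Pool.Agent.H391R2.T4.hilb_numberField K
    · exact h
  refine ⟨fun c d w hd N hlow hup => ?_, fun w E h1 h2 h3 => ?_,
    fun c d hc => ⟨?_, ?_, ?_, ?_⟩⟩
  · have hEP := Pool.Agent.Helper72.FA.EP_gal hK' N c d w hd hlow hup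
    refine ⟨hEP, fun G _ _ => ?_,
      fun hc => Pool.Agent.Helper72.FA.free_gal hK' N c d w hd hlow hup⟩
    obtain ⟨ψ, hψ, hψo, -⟩ := hEP PUnit G 1 1 (fun _ => ⟨1, rfl⟩)
      (by
        have h1 : ((1 : (AlgebraicClosure K ≃ₐ[N] AlgebraicClosure K) →* PUnit).ker :
            Set (AlgebraicClosure K ≃ₐ[N] AlgebraicClosure K)) = Set.univ :=
          Set.eq_univ_of_forall fun _ => rfl
        rw [h1]
        exact isOpen_univ) (fun _ => ⟨1, rfl⟩)
    let C : ClosedSubgroup (AlgebraicClosure K ≃ₐ[N] AlgebraicClosure K) :=
      ⟨ψ.ker, Subgroup.isClosed_of_isOpen _ hψo⟩
    have hfix : (IntermediateField.fixedField ψ.ker).fixingSubgroup = ψ.ker :=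
      InfiniteGalois.fixingSubgroup_fixedField C
    have hCn : (C : Subgroup (AlgebraicClosure K ≃ₐ[N] AlgebraicClosure K)).Normal :=
      inferInstanceAs (ψ.ker.Normal)
    refine ⟨IntermediateField.fixedField ψ.ker, ?_, ?_, ?_⟩
    · rw [← InfiniteGalois.isOpen_iff_finite, hfix]
      exact hψo
    · rw [← InfiniteGalois.normal_iff_isGalois, hfix]
      infer_instance
    · exact ⟨(InfiniteGalois.normalAutEquivQuotient C).symm.trans
        (QuotientGroup.quotientKerEquivOfSurjective ψ hψ)⟩
  · refine Pool.Agent.Helper72.FA.le_splitField E w ?_
    rcases h3 with h3 | h3
    · exact Pool.Agent.Helper72.FA.splitsOff_simple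
    · intro C _ n hw h5 hn
      exact ((h3 C n hw h5).false hn.some).elim
  · exact Pool.Agent.Helper72.FA.altField_normal c d
  · exact fun w => Pool.Agent.Helper72.FA.altField_le c d w hc
  · exact Pool.Agent.Helper72.FA.gal_prod c d hc
  · intro F hF hFf hdeg
    exact Pool.Agent.Helper72.FA.small_degree c d hc F hF hdeg

end Pool.Agent.Results.MP_dadaab_nt.FreeAlternatingClosure
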