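import Pool.Agent.Helper92.SL.Num

/-!
# The lattices of subfields of number fields

The following are equivalent for a partially ordered set `Λ`: `Λ` is isomorphic to an interval
`[H, G]` of the subgroup lattice of a finite group `G`; `Λ` is isomorphic to the lattice of the
intermediate fields of some finite separable extension `E / F` of fields (`F` is arbitrary); `Λ` is
isomorphic to the lattice of all subfields of a number field `K`.

Moreover `K` can then be chosen without nontrivial automorphisms, even rigid, in a Galois extension
`L` of `ℚ` which is totally real and tamely ramified, with any given finite set of primes splitting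
completely, and with no subfield except `ℚ` in common with a given number field. The same holds over
every Hilbertian field `k` of characteristic zero, and over `k(t)` for every field `k` of
characteristic zero, with `k` algebraically closed in the Galois closure. The class of these
lattices is closed under duality.

For every finite group `G` the lattice is realised as if `G` and its subgroups were Galois groups
over `ℚ`: this is the consequence of the inverse Galois problem for the lattices of subfields.
-/

set_option autoImplicit false

open NumberField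

namespace Pool.Agent.Results.MP_dadaab_nt.SubfieldLattices

/-- `Λ` is isomorphic to the interval `[H, G]` of the subgroup lattice of a finite group `G`. -/
def IsInterval (Λ : Type) [PartialOrder Λ] : Prop :=
  ∃ (G : Type) (_ : Group G) (_ : Finite G) (H : Subgroup G), Nonempty (Λ ≃o Set.Ici H)

/-- Every homomorphism over `k` from an intermediate field of `E / k` to `E` is the inclusion. -/
def Rigid (k E : Type) [Field k] [Field E] [Algebra k E] : Prop :=
  ∀ (F : IntermediateField k E) (φ : F →ₐ[k] E) (x : F), φ x = (x : E)

/-- Every homomorphism from a subfield of `K` to `K` is the inclusion. -/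
def RigidField (K : Type) [Field K] : Prop :=
  ∀ (F : Subfield K) (φ : F →+* K) (x : F), φ x = (x : K)

/-- `L` is totally real, tamely ramified over `ℚ`, and all primes of `S` split completely. -/
def Local (L : Type) [Field L] [NumberField L] (S : Finset ℕ) : Prop :=
  IsTotallyReal L ∧
  (∀ p ∈ S, p.Prime →
    ((Ideal.span {(p : ℤ)}).primesOver (𝓞 L)).ncard = Module.finrank ℚ L) ∧
  ∀ p : ℕ, p.Prime → ∀ P : Ideal (𝓞 L), P.IsPrime → (p : 𝓞 L) ∈ P → ¬ p ∣ P.ramificationIdx ℤ

/-- `K` is Hilbertian: for every monic irreducible polynomial `f` in `Y` over `K[t]`, separable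
over `K(t)`, and every nonzero `g` in `K[t]` there is `a` in `K` with `g(a) ≠ 0` such that `f` stays
irreducible over `K` when `t` is replaced by `a`. -/
def Hilbertian (K : Type) [Field K] : Prop :=
  ∀ (f : Polynomial (Polynomial K)), f.Monic → Irreducible f →
    (f.map (algebraMap (Polynomial K) (FractionRing (Polynomial K)))).Separable →
    ∀ g : Polynomial K, g ≠ 0 →
      ∃ a : K, g.eval a ≠ 0 ∧ Irreducible (f.map (Polynomial.evalRingHom a))

/-- `Λ` is the lattice of intermediate fields of some finite separable extension of fields. -/
def IsIntermediateLattice (Λ : Type) [PartialOrder Λ] : Prop :=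
  ∃ (F E : Type) (_ : Field F) (_ : Field E) (_ : Algebra F E), FiniteDimensional F E ∧
    Algebra.IsSeparable F E ∧ Nonempty (Λ ≃o IntermediateField F E)

/-- `Λ` is the lattice of all subfields of a number field. -/
def IsSubfieldLattice (Λ : Type) [PartialOrder Λ] : Prop :=
  ∃ (K : Type) (_ : Field K) (_ : NumberField K), Nonempty (Λ ≃o Subfield K)

/-- `Λ` is the lattice of all subfields of `K`, the field `K` is rigid, and the only subfield of `K`
which embeds into `M` is the prime field. -/
def Good (Λ : Type) [PartialOrder Λ] (K M : Type) [Field K] [Field M] : Prop :=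
  Nonempty (Λ ≃o Subfield K) ∧ RigidField K ∧ ∀ F : Subfield K, Nonempty (F →+* M) → F = ⊥

/-- `Λ` is the lattice of all subfields of a rigid number field `K`, contained in a totally real,
tamely ramified Galois extension `L` of `ℚ` in which the primes of `S` split completely; the only
subfield of `K` which embeds into `M` is `ℚ`. -/
def SubfieldLatticeWith (Λ : Type) [PartialOrder Λ] (S : Finset ℕ) (M : Type) [Field M] : Prop :=
  ∃ (L : Type) (_ : Field L) (_ : NumberField L), IsGalois ℚ L ∧ Local L S ∧
    ∃ K : IntermediateField ℚ L, Good Λ K M

/-- `Λ` is the lattice of intermediate fields of the rigid extension `E` of `k`. -/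
def Has (Λ : Type) [PartialOrder Λ] (k E : Type) [Field k] [Field E] [Algebra k E] : Prop :=
  Nonempty (Λ ≃o IntermediateField k E) ∧ Rigid k E

/-- `Λ` is the lattice of intermediate fields of a rigid finite extension `E` of `k`. -/
def LatticeOver (Λ : Type) [PartialOrder Λ] (k : Type) [Field k] : Prop :=
  ∃ (E : Type) (_ : Field E) (_ : Algebra k E), FiniteDimensional k E ∧ Has Λ k E

/-- `L` is a finite Galois extension of `R` in which `k` is algebraically closed. -/
def RegularGalois (k R L : Type) [Field k] [Field R] [Field L] [Algebra k L] [Algebra R L] :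
    Prop :=
  FiniteDimensional R L ∧ IsGalois R L ∧
    ∀ y : L, IsAlgebraic k y → y ∈ Set.range (algebraMap k L)

/-- `Λ` is the lattice of intermediate fields of a rigid finite extension `E` of `k(t)`, contained
in a finite Galois extension `L` of `k(t)` in which `k` is algebraically closed. -/
def RegularLattice (Λ : Type) [PartialOrder Λ] (k : Type) [Field k] : Prop :=
  ∃ (L : Type) (_ : Field L) (_ : Algebra (RatFunc k) L) (_ : Algebra k L)
    (_ : IsScalarTower k (RatFunc k) L), RegularGalois k (RatFunc k) L ∧
    ∃ E : IntermediateField (RatFunc k) L, Has Λ (RatFunc k) E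

end Pool.Agent.Results.MP_dadaab_nt.SubfieldLattices

open Pool.Agent.Results.MP_dadaab_nt.SubfieldLattices in
theorem Pool.Agent.Results.MP_dadaab_nt.SubfieldLattices.result (Λ : Type) [PartialOrder Λ] :
    List.TFAE [
      -- (1) `Λ` is an interval in the subgroup lattice of a finite group
      IsInterval Λ,
      -- (2) the same for the dual of `Λ`
      IsInterval Λᵒᵈ,
      -- (3) `Λ` is the lattice of intermediate fields of some finite separable extension
      IsIntermediateLattice Λ,
      -- (4) `Λ` is the lattice of subfields of a number field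
      IsSubfieldLattice Λ,
      -- (5) the same with additional properties
      ∀ (S : Finset ℕ) (M : Type) [Field M] [NumberField M], SubfieldLatticeWith Λ S M,
      -- (6) every number field and every Hilbertian field of characteristic zero has a finite
      -- extension with the lattice `Λ`
      ∀ (k : Type) [Field k] [CharZero k], NumberField k ∨ Hilbertian k → LatticeOver Λ k,
      -- (7) regular extensions of `k(t)`
      ∀ (k : Type) [Field k] [CharZero k], RegularLattice Λ k] := by
  tfae_have 1 → 2 := Pool.Agent.Helper92.SL.dual_isInterval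
  tfae_have 2 → 1 := Pool.Agent.Helper92.SL.isInterval_dual
  tfae_have 3 → 2 := by
    rintro ⟨F, E, _, _, _, _, _, ⟨i⟩⟩
    obtain ⟨G, i1, i2, H, ⟨j⟩⟩ := Pool.Agent.Helper92.SL.converse F E
    exact ⟨G, i1, i2, H, ⟨(i.trans j).dual.trans (OrderIso.dualDual _).symm⟩⟩
  tfae_have 4 → 3 := by
    rintro ⟨K, _, _, ⟨i⟩⟩
    exact ⟨ℚ, K, inferInstance, inferInstance, inferInstance, inferInstance, inferInstance,
      ⟨i.trans (Pool.Agent.Helper92.SL.subfieldIso K)⟩⟩
  tfae_have 1 → 5 := by
    intro h S M _ _
    obtain ⟨L, i1, i2, i3, hl, K, hK, hr⟩ := Pool.Agent.Helper92.SL.exists_numberField h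
      (S ∪ (discr M).natAbs.primeFactors)
    refine ⟨L, i1, i2, i3, ⟨hl.1, fun p hp => hl.2.1 p (Finset.mem_union_left _ hp), hl.2.2⟩, K,
      hK, hr, fun F hF => ?_⟩
    exact Pool.Agent.Helper92.SL.disjoint L M
      (fun p hp => hl.2.1 p (Finset.mem_union_right _ hp)) K F hF
  tfae_have 5 → 4 := by
    intro h
    obtain ⟨L, i1, i2, -, -, K, hK, -⟩ := h ∅ ℚ
    exact ⟨K, inferInstance, inferInstance, hK⟩
  tfae_have 1 → 6 := by
    intro h k _ _ hk
    refine Pool.Agent.Helper92.SL.exists_hilbertian h k ?_
    rcases hk with hk | hk
    · exact Pool.Agent.Helper92.SL.hilbertian_numberField k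
    · exact hk
  tfae_have 6 → 3 := by
    intro h
    obtain ⟨E, i1, i2, i3, hE, -⟩ := h ℚ (Or.inl inferInstance)
    have hc : CharZero E := charZero_of_injective_algebraMap (algebraMap ℚ E).injective
    exact ⟨ℚ, E, inferInstance, i1, i2, i3, inferInstance, hE⟩
  tfae_have 1 → 7 := by
    intro h k _ _
    obtain ⟨L, i1, i2, i3, i4, h1, h2, h3, E, hE⟩ := Pool.Agent.Helper92.SL.exists_regular h k
    exact ⟨L, i1, i2, i3, i4, ⟨h1, h2, h3⟩, E, hE⟩
  tfae_have 7 → 3 := by
    intro h
    obtain ⟨L, i1, i2, i3, i4, ⟨i5, i6, -⟩, E, hE, -⟩ := h ℚ
    exact ⟨RatFunc ℚ, E, inferInstance, inferInstance, inferInstance, inferInstance, inferInstance,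
      hE⟩
  tfae_finish
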