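import Mathlib
import Pool.Agent.Helper72.TS.Main

/-!
# Free Galois groups over the compositum of all totally real symmetric extensions

Let `P` be a set of primes and let `T = T_P` be the field of all algebraic numbers which are totally
real and totally `p`-adic for all `p ∈ P`: the compositum of all finite Galois extensions `E / ℚ`
which have embeddings into `ℝ` and into `ℚ_p`, `p ∈ P`. So `T_∅` is the field of all totally real
numbers. Let `N_c ⊆ T`, for `c, d ≥ 1`, be the compositum of ALL Galois extensions `E / ℚ` with
`E ⊆ T` and `Gal(E/ℚ) ≅ S_n`, `n ≥ c`, `d ∣ n`. For a natural number `w` let `U_w ⊆ T` be the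
compositum of all finite Galois `E / ℚ`, `E ⊆ T`, such that in all subgroups `H ≤ Gal(E/ℚ)` of
index at most two all quotients `A_n` with `n ≥ w` and `n ≥ 5` split off (for example, `H` has no
such quotient).

1. Let `P` be finite. Let `N` be any field with `N_c ⊆ N ⊆ U_w`, Galois over `ℚ` or not. Then
   `Gal(T/N)` is the free profinite group of countable rank: every finite embedding problem for
   `Gal(T/N)` has a proper solution, and every finite group is the Galois group of an extension of
   `N` inside `T`.
2. Let `S` be a finite set of primes, let `F` be a number field in `T_S` and let `g` be any function.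
   Then there are primes `p_0 < p_1 < …`, with `p_(i+1) > g(p_i)`, such that `F ⊆ T_P` and the
   assertion of 1 holds for the INFINITE set `P = S ∪ {p_0, p_1, …}` in place of `S`.
3. For all sets `P`, finite or infinite: `T_P` is Galois over `ℚ`, and `x ∈ T_P` if and only if the
   minimal polynomial of `x` splits over `ℝ` and over all `ℚ_p`, `p ∈ P`. `U_w` contains all `E`
   (finite Galois over `ℚ`, in `T_P`) with `Gal(E/ℚ)` simple or isomorphic to some `S_n`, `n ≥ 5`,
   and all `E` such that `A_n`, `n ≥ w`, is no quotient of a subgroup of index at most two of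
   `Gal(E/ℚ)`, for example all solvable ones. The union of the fields `U_w` is `T_P`. `N_c` is
   Galois over `ℚ` and `N_c ⊆ U_w` for all `w`.

So there is an exact sequence `1 → F → Gal(T/ℚ) → Gal(N_c/ℚ) → 1`, where `F` is a free
profinite group of countable rank and `Gal(N_c/ℚ)` is a closed subgroup of a product of symmetric
groups; and `Gal(T/N)` is free also for `N = U_w`, for `N = N_c L` with any finite extension `L` of
`ℚ` in `T`, and for `N = N_c L` with any subfield `L` of the compositum of all solvable extensions
and all Galois extensions with simple groups inside `T`.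

Without local conditions, the freeness over the compositum of all symmetric extensions is a theorem
of Fried, Völklein and Jarden (PAC fields). For finite `P` the closest results we know are those on
pseudo-`P`-closed fields (Geyer, Haran, Jarden, Pop, Razon). For infinite `P` no such theory is
known to us: nothing is used here on varieties over `N` or `T`.

Outline. The main point is a local version of the theorem of the starting library on symmetric fibre
powers. Let `L ⊆ T` be a finite Galois extension of `ℚ`, `α : B → Gal(L/ℚ)` a surjection of finite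
groups. There is a polynomial `y ∈ L[X_b : b ∈ B]` whose stabilizer in `Sym(B)` is the kernel of `α`
and which is twisted invariant under `B`. We look at the points with `e_i(v) = θ_i + θ'_i s` for the
elementary symmetric functions and `y(v) = c s² R(s) + θ_0 + θ'_0 s`. For generic `θ` the geometric
monodromy group of this family of degree `n` contains all elements of `(ker α) ≀ S_n` with trivial
product in the abelianization (a degeneration with one double root and many parameters); the twisted
invariance of `y` gives the arithmetic part. For `θ' = 0`, `θ_i = e_i(l)` with rational numbers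
`l_b`, and suitable rational numbers `c` and `θ_0`, all equations are totally split over `ℝ` and over
`ℚ_p` for the finitely many primes in question: so they are in a neighbourhood, and Hilbert's
irreducibility theorem with weak approximation gives the specialization. Then the embedding problems
over `N` are solved by the first coordinates of the fibre powers, and Iwasawa's criterion applies. For
2, the primes are chosen recursively, together with solutions of all embedding problems: the prime
`p_i` splits in the solutions which were constructed for the finite sets `S ∪ {p_j : j < k}`,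
`k ≤ i`.
-/

set_option autoImplicit false

namespace Pool.Agent.Results.MP_dadaab_nt.TotallyRealNumbers

open Filter Topology

/-- The field `T_P`: the compositum of all finite Galois extensions of `ℚ`, in the field of algebraic
numbers, which are totally real and totally split at all primes of `P`. -/
noncomputable def TotallySplit (P : Set ℕ) : IntermediateField ℚ (AlgebraicClosure ℚ) :=
  sSup {E | FiniteDimensional ℚ E ∧ IsGalois ℚ E ∧ Nonempty (E →+* ℝ) ∧
    ∀ (p : ℕ) [Fact p.Prime], p ∈ P → Nonempty (E →+* ℚ_[p])}

/-- The compositum of all Galois extensions of `K` in `Ω` whose group is isomorphic to a symmetric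
group `S_n` with `n ≥ c` and `d ∣ n`. -/
noncomputable def SymmetricClosure (K Ω : Type) [Field K] [Field Ω] [Algebra K Ω] (c d : ℕ) :
    IntermediateField K Ω :=
  sSup {E | FiniteDimensional K E ∧ IsGalois K E ∧ ∃ n : ℕ, c ≤ n ∧ d ∣ n ∧
    Nonempty ((E ≃ₐ[K] E) ≃* Equiv.Perm (Fin n))}

/-- Every quotient `G / C` of `G` which is isomorphic to an alternating group `A_n` with `n ≥ w` and
`n ≥ 5` splits off: `G` is generated by `C` and the centralizer of `C`. This holds in particular
if `G` has no quotient which is isomorphic to such an `A_n`. -/
def AlternatingQuotientsSplitOff (w : ℕ) (G : Type) [Group G] : Prop :=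
  ∀ (C : Subgroup G) [C.Normal] (n : ℕ), w ≤ n → 5 ≤ n →
    Nonempty ((G ⧸ C) ≃* alternatingGroup (Fin n)) →
    C ⊔ Subgroup.centralizer (C : Set G) = ⊤

/-- The compositum of all finite Galois extensions of `K` in `Ω` such that in all subgroups of index
at most two of the Galois group all quotients `A_n` with `n ≥ w` and `n ≥ 5` split off. -/
noncomputable def SplitClosure (K Ω : Type) [Field K] [Field Ω] [Algebra K Ω] (w : ℕ) :
    IntermediateField K Ω :=
  sSup {E | FiniteDimensional K E ∧ IsGalois K E ∧
    ∀ H : Subgroup (E ≃ₐ[K] E), H.index ≤ 2 → AlternatingQuotientsSplitOff w H}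

/-- Every finite embedding problem for the profinite group `G` has a proper solution: for all
continuous surjective homomorphisms `φ : G → A` (that is, `ker φ` is open) and all surjective
homomorphisms `α : B → A` of finite groups there is a continuous surjective `ψ : G → B` with
`α ∘ ψ = φ`. -/
def EmbeddingProblemsSolvable (G : Type) [Group G] [TopologicalSpace G] : Prop :=
  ∀ (A B : Type) [Group A] [Group B] [Finite B] (φ : G →* A) (α : B →* A),
    Function.Surjective φ → IsOpen (φ.ker : Set G) → Function.Surjective α →
    ∃ ψ : G →* B, Function.Surjective ψ ∧ IsOpen (ψ.ker : Set G) ∧ α.comp ψ = φ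

/-- `G` is a free profinite group of countably infinite rank: it has elements `x 0, x 1, …`,
converging to `1`, such that for every profinite group `H` and all elements `y 0, y 1, …` of `H`
which converge to `1` there is exactly one continuous homomorphism `G → H` which maps all `x i` to
`y i`. -/
def FreeProfiniteCountableRank (G : Type) [Group G] [TopologicalSpace G] : Prop :=
  ∃ x : ℕ → G, Tendsto x atTop (𝓝 1) ∧
    ∀ (H : Type) [Group H] [TopologicalSpace H] [IsTopologicalGroup H] [CompactSpace H]
      [T2Space H] [TotallyDisconnectedSpace H] (y : ℕ → H), Tendsto y atTop (𝓝 1) →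
      ∃! f : G →* H, Continuous f ∧ ∀ i, f (x i) = y i

/-- For all fields `N` between the compositum of the symmetric extensions of `K` in `Ω` of degrees
`n ≥ c`, `d ∣ n`, and the field `SplitClosure K Ω w`: all finite embedding problems for `Gal(Ω/N)`
are solvable, every finite group is a Galois group over `N` inside `Ω`, and `Gal(Ω/N)` is free
profinite of countable rank. -/
def FreeOverSymmetric (K Ω : Type) [Field K] [Field Ω] [Algebra K Ω] : Prop :=
  ∀ (c d w : ℕ), 0 < d → ∀ N : IntermediateField K Ω,
    SymmetricClosure K Ω c d ≤ N → N ≤ SplitClosure K Ω w →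
    EmbeddingProblemsSolvable (Ω ≃ₐ[N] Ω) ∧
    (∀ (G : Type) [Group G] [Finite G], ∃ M : IntermediateField N Ω,
      FiniteDimensional N M ∧ IsGalois N M ∧ Nonempty ((M ≃ₐ[N] M) ≃* G)) ∧
    FreeProfiniteCountableRank (Ω ≃ₐ[N] Ω)

/-- `T_P` is Galois over `ℚ` and consists of the algebraic numbers whose minimal polynomials split
over `ℝ` and over all fields `ℚ_p`, `p ∈ P`. -/
def Described (P : Set ℕ) : Prop :=
  IsGalois ℚ (TotallySplit P) ∧ ∀ x : AlgebraicClosure ℚ, x ∈ TotallySplit P ↔
    ((minpoly ℚ x).map (algebraMap ℚ ℝ)).Splits ∧
      ∀ (p : ℕ) [Fact p.Prime], p ∈ P → ((minpoly ℚ x).map (algebraMap ℚ ℚ_[p])).Splits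

/-- No subgroup of index at most two of `G` has a quotient `A_n` with `n ≥ w` and `n ≥ 5`. -/
def NoAlternatingQuotients (w : ℕ) (G : Type) [Group G] : Prop :=
  ∀ (H : Subgroup G) (C : Subgroup H) [C.Normal] (n : ℕ), H.index ≤ 2 → w ≤ n → 5 ≤ n →
    IsEmpty (H ⧸ C ≃* alternatingGroup (Fin n))

/-- The union of the fields `SplitClosure K Ω w` is `Ω`, and `SplitClosure K Ω w` contains all finite
Galois extensions `E` of `K` in `Ω` whose group is simple, or isomorphic to some `S_n`, `n ≥ 5`, or
has no quotients `A_n`, `n ≥ w`, of subgroups of index at most two. -/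
def SplitClosuresLarge (K Ω : Type) [Field K] [Field Ω] [Algebra K Ω] : Prop :=
  (∀ x : Ω, ∃ w, x ∈ SplitClosure K Ω w) ∧
    ∀ (w : ℕ) (E : IntermediateField K Ω), FiniteDimensional K E → IsGalois K E →
      ((∃ n, 5 ≤ n ∧ Nonempty ((E ≃ₐ[K] E) ≃* Equiv.Perm (Fin n))) ∨
        IsSimpleGroup (E ≃ₐ[K] E) ∨ NoAlternatingQuotients w (E ≃ₐ[K] E)) →
      E ≤ SplitClosure K Ω w

/-- The fields `SymmetricClosure K Ω c d` are Galois over `K` and contained in all fields
`SplitClosure K Ω w`. -/
def SymmetricClosuresSmall (K Ω : Type) [Field K] [Field Ω] [Algebra K Ω] : Prop :=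
  ∀ c d : ℕ, Normal K (SymmetricClosure K Ω c d) ∧
    ∀ w, SymmetricClosure K Ω c d ≤ SplitClosure K Ω w

theorem result :
    (∀ S : Finset ℕ, FreeOverSymmetric ℚ (TotallySplit S)) ∧
    (∀ (S : Finset ℕ) (F : IntermediateField ℚ (AlgebraicClosure ℚ)), FiniteDimensional ℚ F →
      F ≤ TotallySplit S → ∀ g : ℕ → ℕ, ∃ p : ℕ → ℕ, StrictMono p ∧ (∀ i, (p i).Prime) ∧
        g 0 < p 0 ∧ (∀ i, g (p i) < p (i + 1)) ∧ F ≤ TotallySplit (S ∪ Set.range p) ∧
        FreeOverSymmetric ℚ (TotallySplit (S ∪ Set.range p))) ∧
    ∀ P : Set ℕ, Described P ∧ SplitClosuresLarge ℚ (TotallySplit P) ∧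
      SymmetricClosuresSmall ℚ (TotallySplit P) := by
  obtain ⟨h1, h2, h3⟩ := Pool.Agent.Helper72.TS.main
  refine ⟨h1, h2, fun P => ?_⟩
  obtain ⟨k1, k2, k3, k4, k5⟩ := h3 P
  exact ⟨⟨k1, k2⟩, ⟨k4, k3⟩, k5⟩

end Pool.Agent.Results.MP_dadaab_nt.TotallyRealNumbers
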